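import Pool.Agent.H787.G.R_seed8.R877.RN.Defs

/-! Project RN: exact statements of the pieces (see NOTES.md for proofs). -/

namespace R877.RN
open Matrix Filter Topology

/-! ### matrix level, elementary -/

/-- BAS1 -/
def P_ACTMUL : Prop := ∀ (n : ℕ) (c d : Mat n) (μ : Br n), IsUnit c.det → IsUnit d.det →
  act (c * d) μ = act c (act d μ)

/-- BAS2 -/
def P_MROT : Prop := ∀ (n : ℕ) (l : Mat n) (μ : Br n), IsO l → Mm (act l μ) = l * Mm μ * lᵀ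

/-- BAS3 -/
def P_MTR : Prop := ∀ (n : ℕ) (μ : Br n) (a : Fin n → ℝ), Asym μ →
  ∑ i, a i * Mm μ i i = (1/4) * ∑ i, ∑ j, ∑ k, (a k - a i - a j) * (μ i j k)^2

/-- BAS4 -/
def P_DERACT : Prop := ∀ (n : ℕ) (c A : Mat n) (μ : Br n), IsUnit c.det → IsDer A μ →
  IsDer (conj c A) (act c μ)

/-- BAS5 -/
def P_ASYMACT : Prop := ∀ (n : ℕ) (c : Mat n) (μ : Br n), Asym μ → Asym (act c μ)

/-- BAS6 -/
def P_JACT : Prop := ∀ (n : ℕ) (c : Mat n) (μ : Br n), IsUnit c.det → Jac μ → Jac (act c μ)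

/-- QR -/
def P_QR : Prop := ∀ (n : ℕ) (a : Fin n → ℝ) (c : Mat n), IsUnit c.det →
  ∃ k : Mat n, IsO k ∧ Par a (k * c)

/-- PAR1 -/
def P_PINV : Prop := ∀ (n : ℕ) (a : Fin n → ℝ) (R : Mat n), IsUnit R.det → Par a R → Par a R⁻¹

/-- PAR2 -/
def P_BT : Prop := ∀ (n : ℕ) (a : Fin n → ℝ) (R X : Mat n), IsUnit R.det → Par a R → Par a X →
  ∑ i, a i * (R * X * R⁻¹) i i = ∑ i, a i * X i i

/-- PAR3 -/
def P_ACTP : Prop := ∀ (n : ℕ) (a : Fin n → ℝ) (R : Mat n) (ν : Br n), IsUnit R.det → Par a R →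
  (∀ i j k, ν i j k ≠ 0 → a i + a j ≤ a k) → ∀ i j k, act R ν i j k ≠ 0 → a i + a j ≤ a k

/-- PAR4 -/
def P_NIL0 : Prop := ∀ (n : ℕ) (a : Fin n → ℝ) (X : Mat n), IsNilpotent X → Par a X →
  ∑ i, a i * X i i = 0

/-- NEC -/
def P_NEC : Prop := ∀ (n m : ℕ) (μ : Br n) (A : Fin m → Mat n) (D F c : Mat n) (δ : ℝ),
  Asym μ → IsUnit c.det → (∀ x, 0 ≤ qf F x) →
  (∀ x, qf (Mm (act c μ) + (1/2 : ℝ) • ∑ i, com (conj c (A i)) + F) x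
      ≤ qf (conj c D) x - δ * (x ⬝ᵥ x)) →
  ∀ (l : Mat n) (a : Fin n → ℝ), IsO l → (∀ i, 0 ≤ a i) → CB l a μ → (∀ i, CM l a (A i)) →
    CM l a D → δ * ∑ i, a i ≤ dt D l a

/-- ADC: compatibility with the bracket gives compatibility with inner derivations -/
def P_ADC : Prop := ∀ (n : ℕ) (μ : Br n) (l : Mat n) (a : Fin n → ℝ), IsO l → (∀ i, 0 ≤ a i) →
  CB l a μ → ∀ x, CM l a (adm μ x)

/-- CEN: a test given by the centre -/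
def P_CEN : Prop := ∀ (n : ℕ) (μ : Br n), 0 < n → Asym μ → Tri μ 0 →
  ∃ (l : Mat n) (a : Fin n → ℝ), IsO l ∧ (∀ i, 0 ≤ a i) ∧ (∃ i, 0 < a i) ∧ CB l a μ ∧
    ∀ A, IsDer A μ → CM l a A

/-- SPEED -/
def P_SPEED : Prop := ∀ (n : ℕ) (N l : Mat n) (a : Fin n → ℝ) (L : ℝ → Mat n), N^n = 0 → IsO l →
  (∀ t, IsO (L t)) → (∀ t, Par a (L t * ex N t * lᵀ)) →
  ∀ i j, a i < a j → Tendsto (fun t => (L t * N * (L t)ᵀ) i j) atTop (𝓝 0)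

/-- EXD: `ex N t` is an invertible automorphism commuting with what commutes with `N` -/
def P_EXD : Prop := ∀ (n : ℕ) (N : Mat n) (μ : Br n), N^n = 0 → IsDer N μ →
  ∀ t, IsUnit (ex N t).det ∧ act (ex N t) μ = μ

/-- EXL: `exp(tN)` normalises a space of matrices normalised by `N` -/
def P_EXL : Prop := ∀ (n : ℕ) (N : Mat n) (L : Submodule ℝ (Mat n)), N^n = 0 →
  (∀ X ∈ L, N * X - X * N ∈ L) → ∀ t, ∀ X ∈ L, (ex N t)⁻¹ * X * ex N t ∈ L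

/-- FLAG -/
def P_FLAG : Prop := ∀ (n : ℕ) (μ : Br n) (N : Mat n) (T : Set (Mat n)) (L : Submodule ℝ (Mat n)),
  N^n = 0 → IsDer N μ → (∀ S ∈ T, Sᵀ ∈ T ∧ S * N = N * S) → (∀ X ∈ L, N * X - X * N ∈ L) →
  ∀ (l : Mat n) (a : Fin n → ℝ), IsO l → CB l a μ → (∀ S ∈ T, CS l a S) → (∀ X ∈ L, CM l a X) →
  ∃ l' : Mat n, IsO l' ∧ CB l' a μ ∧ (∀ S ∈ T, CS l' a S) ∧ (∀ X ∈ L, CM l' a X) ∧ CM l' a N ∧
    ∀ S ∈ T, dt S l' a = dt S l a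

/-- CHN: iteration of FLAG along a chain -/
def P_CHN : Prop := ∀ (n m : ℕ) (μ : Br n) (A S N : Fin m → Mat n) (T : Set (Mat n)),
  (∀ i, A i = S i + N i ∧ S i ∈ T ∧ (N i)^n = 0 ∧ IsDer (N i) μ) →
  (∀ S ∈ T, Sᵀ ∈ T) → (∀ S ∈ T, ∀ i, S * A i = A i * S) → (∀ S ∈ T, ∀ S' ∈ T, S * S' = S' * S) →
  (∀ i j, i < j → A j * A i - A i * A j ∈ Submodule.span ℝ (A '' {i' | i' < j})) →
  ∀ (l : Mat n) (a : Fin n → ℝ), IsO l → CB l a μ → (∀ S ∈ T, CS l a S) →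
  ∃ l' : Mat n, IsO l' ∧ CB l' a μ ∧ (∀ S ∈ T, CS l' a S) ∧ (∀ i, CM l' a (A i)) ∧
    ∀ S ∈ T, dt S l' a = dt S l a

/-! ### Kempf-Ness -/

/-- CHI: value of the character through the spectral decomposition -/
def P_CHI : Prop := ∀ (n : ℕ) (d : Fin n → ℝ) (c l : Mat n) (a : Fin n → ℝ), IsUnit c.det →
  c * diagonal d = diagonal d * c → IsO l → cᵀ * c = lᵀ * diagonal (fun i => Real.exp (2 * a i)) * l →
  chi d c = ∑ i, a i * (l * diagonal d * lᵀ) i i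

/-- CHV: variation of the character -/
def P_CHV : Prop := ∀ (n : ℕ) (d : Fin n → ℝ) (c E : Mat n), IsUnit c.det →
  c * diagonal d = diagonal d * c → E * diagonal d = diagonal d * E → ∀ s : ℝ,
  chi d (NormedSpace.exp (s • E) * c) = chi d c + s * (diagonal d * E).trace

/-- KNMIN: existence of a minimiser -/
def P_KNMIN : Prop := ∀ (n : ℕ) (μ : Br n) (N : Mat n) (T : Set (Mat n)) (d : Fin n → ℝ) (r : ℝ),
  (∀ S ∈ T, Sᵀ ∈ T) → diagonal (fun i => d i + r) ∈ T →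
  (∀ (l : Mat n) (a : Fin n → ℝ), IsO l → (∀ i, 0 ≤ a i) → (∃ i, 0 < a i) → CB l a μ → CM l a N →
    (∀ S ∈ T, CS l a S) → 0 < dt (diagonal d) l a) →
  ∃ c0, InC T c0 ∧ ∀ c, InC T c → Phi d μ N c0 ≤ Phi d μ N c

/-- EL: the Euler-Lagrange equation -/
def P_EL : Prop := ∀ (n : ℕ) (μ : Br n) (N : Mat n) (T : Set (Mat n)) (d : Fin n → ℝ) (r : ℝ)
  (c0 : Mat n),
  Asym μ → (∀ S ∈ T, Sᵀ ∈ T) → diagonal (fun i => d i + r) ∈ T → InC T c0 →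
  (∀ c, InC T c → Phi d μ N c0 ≤ Phi d μ N c) →
  ∀ E : Mat n, Eᵀ = E → (∀ S ∈ T, S * E = E * S) →
    ((Mm (act c0 μ) + (1/2 : ℝ) • com (conj c0 N) + c0 * c0ᵀ - diagonal d) * E).trace = 0

/-- MCOM: derivations `S`, `Sᵀ` commute with `M` -/
def P_MCOM : Prop := ∀ (n : ℕ) (ν : Br n) (S : Mat n), Asym ν → IsDer S ν → IsDer Sᵀ ν →
  Mm ν * S = S * Mm ν

/-- FULLX: the equation holds as a matrix equation -/
def P_KN : Prop := ∀ (n : ℕ) (μ : Br n) (N : Mat n) (T : Set (Mat n)) (d : Fin n → ℝ) (r : ℝ),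
  Asym μ → (∀ S ∈ T, Sᵀ ∈ T) → diagonal (fun i => d i + r) ∈ T → (∀ S ∈ T, ∀ S' ∈ T, S * S' = S' * S) →
  (∀ S ∈ T, IsDer S μ) → (∀ S ∈ T, S * N = N * S) →
  (∀ (l : Mat n) (a : Fin n → ℝ), IsO l → (∀ i, 0 ≤ a i) → (∃ i, 0 < a i) → CB l a μ → CM l a N →
    (∀ S ∈ T, CS l a S) → 0 < dt (diagonal d) l a) →
  ∃ c, InC T c ∧ Mm (act c μ) + (1/2 : ℝ) • com (conj c N) + c * cᵀ = diagonal d

/-- BOUND -/
def P_BOUND : Prop := ∀ (n : ℕ) (K : ℝ), ∃ R : ℝ, ∀ (μ : Br n) (N : Mat n), Asym μ → Tri μ N →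
  (∀ x, qf (Mm μ + (1/2 : ℝ) • com N) x ≤ K * (x ⬝ᵥ x)) →
  ∑ i, ∑ j, ∑ k, (μ i j k)^2 ≤ R ∧ ∑ i, ∑ j, (N i j)^2 ≤ R

/-- TRI1: closed -/
def P_TRICL : Prop := ∀ (n : ℕ) (μ : ℕ → Br n) (N : ℕ → Mat n) (μ' : Br n) (N' : Mat n),
  (∀ j, Tri (μ j) (N j)) → Tendsto μ atTop (𝓝 μ') → Tendsto N atTop (𝓝 N') → Tri μ' N'

/-- TRI2: invariant under change of frame and scaling, and nilpotency -/
def P_TRIC : Prop := ∀ (n : ℕ) (μ : Br n) (N c : Mat n) (t : ℝ), Tri μ N →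
  Tri μ 0 ∧ N^n = 0 ∧ (IsUnit c.det → Tri (act c μ) (t • conj c N))

/-- TR0: for a derivation `D` of a nilpotent bracket, `tr (D ad x) = 0` -/
def P_TR0 : Prop := ∀ (n : ℕ) (μ : Br n) (D : Mat n), Asym μ → Jac μ → Tri μ 0 → IsDer D μ →
  ∀ x, (D * adm μ x).trace = 0

/-- PERT: the final perturbation -/
def P_PERT : Prop := ∀ (n : ℕ) (ν : ℕ → Br n) (ν0 : Br n) (Nj : ℕ → Mat n) (S : Mat n)
  (d : Fin n → ℝ) (s : ℝ), Tendsto ν atTop (𝓝 ν0) → Tendsto Nj atTop (𝓝 0) →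
  sy S = diagonal d → S * Sᵀ = Sᵀ * S → (∀ j, S * Nj j = Nj j * S ∧ Sᵀ * Nj j = Nj j * Sᵀ) →
  0 < s → s = ∑ i, d i → (∀ j, (Nj j).trace = 0) →
  (∀ x, x ≠ 0 → qf (Mm ν0 - diagonal d) x < 0) →
  (∀ x : Fin n → ℝ, ∑ p, ∑ i, ∑ k, x p * ν0 p i k * S k i = 0) →
  ∃ j, R1neg (ν j) (S + Nj j) s

/-- matrix level main theorem -/
def P_MAIN : Prop := ∀ (n m k : ℕ) (μ : Br n) (A S N : Fin m → Mat n) (T : Set (Mat n))
  (AY SY NY DH F c0 : Mat n) (B : Fin k → Mat n) (d : Fin n → ℝ) (δ : ℝ),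
  0 < n → Asym μ → Jac μ → Tri μ NY →
  -- the chain
  (∀ i, A i = S i + N i ∧ S i ∈ T ∧ (N i)^n = 0 ∧ IsDer (N i) μ) →
  (∀ S ∈ T, Sᵀ ∈ T) → (∀ S ∈ T, ∀ i, S * A i = A i * S) → (∀ S ∈ T, ∀ S' ∈ T, S * S' = S' * S) →
  (∀ S ∈ T, IsDer S μ) →
  (∀ i j, i < j → A j * A i - A i * A j ∈ Submodule.span ℝ (A '' {i' | i' < j})) →
  -- the element Y
  AY = SY + NY → AY ∈ Submodule.span ℝ (Set.range A) → SY ∈ T → sy SY = diagonal d →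
  diagonal d ∈ T → IsDer NY μ → (∀ S ∈ T, S * NY = NY * S) →
  -- the metric
  0 < δ → IsUnit c0.det → (∀ x, 0 ≤ qf F x) →
  (∀ i, B i ∈ Submodule.span ℝ (Set.range A) ⊔ Submodule.span ℝ (Set.range (adm μ))) →
  (DH - AY ∈ Submodule.span ℝ (Set.range (adm μ))) →
  (∀ x, qf (Mm (act c0 μ) + (1/2 : ℝ) • ∑ i, com (conj c0 (B i)) + F) x
      ≤ qf (conj c0 DH) x - δ * (x ⬝ᵥ x)) →
  0 < ∑ i, d i →
  ∃ c : Mat n, IsUnit c.det ∧ R1neg (act c μ) (conj c AY) (∑ i, d i)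

end R877.RN
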